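import Pool.Agent.H561.E3.K11

/-!
# Multiples of `q` in windows of log-power length: `N = p + s p'` with `s` in an arbitrary set of primes

For every `k ≥ 1` and `ε > 0` there is `θ > 0` such that for all `A`, `B`, `C` there are `u`, `G` with the following property for all
large `x`. Let `1 ≤ P ≤ x ^ θ`, let `S_1, …, S_k` be arbitrary sets of primes in `((log x) ^ u, P]` with
`∑_{s ∈ S_i} 1 / s ≥ (log x) ^ (-B)`, let `[M, M + H)` be any window with `M + H ≤ x` and length `H ≥ P (log x) ^ G`, let `(U, V]` be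
an interval with `V < M` and `V - U ≥ x / (log x) ^ B`, and let `1 ≤ q ≤ (log x) ^ C`. Of all `k`-tuples of different multiples
`N_1, …, N_k` of `q` in `[M, M + H)` for which no prime `ℓ` divides `n (N_1 - n) ⋯ (N_k - n)` for all `n` (in particular the `N_i`
are even), at most `(H / q) ^ k / (log x) ^ A` do not have the following property: the number of the primes `p ∈ (U, V]` for which
every `N_i - p` is the product of a prime from `S_i` and a prime is

`∏_ℓ (1 - 1 / ℓ) ^ (-(k + 1)) (1 - ω(ℓ) / ℓ) * ∏_i (∑_{s ∈ S_i} 1 / s) * (V - U) / (log x) ^ (k + 1)`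

up to a relative error of at most `ε`.

With `P = (log x) ^ (2 u)` and `S` the primes in `((log x) ^ u, P]` this gives, for `k = 1`: for all `q ≤ (log x) ^ C`, in ALL windows of
the length `(log x) ^ (2 u + G)` (up to `x`, and beyond `x / (log x) ^ B`) all but a proportion `(log x) ^ (-A)` of the even multiples
`n` of `q` have at least `c n / (log n) ^ 2` representations `n = p + s p'`.

Proof: `Pool.Agent.H561.E2`, `Pool.Agent.H561.E3` (circle method in short intervals).
-/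

set_option autoImplicit false

namespace Pool.Agent.Results.MP_92f640_nt.MultiplesInShortWindows

open Finset Filter

/-- `m` is the product of an element of `S` and a prime -/
def ProductOfTwo (S : Finset ℕ) (m : ℕ) : Prop := ∃ s ∈ S, ∃ p : ℕ, p.Prime ∧ m = s * p

open Classical in
/-- the number of the primes `p`, `U < p ≤ V`, such that every `N_i - p` is the product of an element of `S_i` and a prime -/
noncomputable def count {k : ℕ} (S : Fin k → Finset ℕ) (N : Fin k → ℕ) (U V : ℕ) : ℕ :=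
  ((Ioc U V).filter (fun p : ℕ => p.Prime ∧ ∀ i, ProductOfTwo (S i) (N i - p))).card

open Classical in
/-- the number of the `n` modulo `ℓ` with `n (N_1 - n) ⋯ (N_k - n) ≡ 0` -/
noncomputable def ω {k : ℕ} (N : Fin k → ℕ) (ℓ : ℕ) : ℕ :=
  ((range ℓ).filter (fun n : ℕ => (ℓ : ℤ) ∣ (n : ℤ) * ∏ i, ((N i : ℤ) - n))).card

/-- the singular series -/
noncomputable def singularSeries {k : ℕ} (N : Fin k → ℕ) : ℝ :=
  ∏' ℓ : Nat.Primes, (1 - 1 / ((ℓ : ℕ) : ℝ))⁻¹ ^ (k + 1) * (1 - (ω N ℓ : ℝ) / ((ℓ : ℕ) : ℝ))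

/-- the expected number -/
noncomputable def expected {k : ℕ} (S : Fin k → Finset ℕ) (N : Fin k → ℕ) (x U V : ℕ) : ℝ :=
  singularSeries N * (∏ i, ∑ s ∈ S i, 1 / (s : ℝ)) * ((V : ℝ) - U) / Real.log x ^ (k + 1)

/-- the `N_i` are different, and no prime divides `n (N_1 - n) ⋯ (N_k - n)` for all `n` -/
def Admissible {k : ℕ} (N : Fin k → ℕ) : Prop :=
  Function.Injective N ∧ ∀ ℓ : ℕ, ℓ.Prime → ∃ n : ℕ, ¬ (ℓ : ℤ) ∣ (n : ℤ) * ∏ i, ((N i : ℤ) - n)

open Classical in
/-- the admissible tuples of multiples of `q` in `[M, M + H)` for which the formula fails, up to a relative error of at most `ε` -/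
noncomputable def exceptional {k : ℕ} (ε : ℝ) (S : Fin k → Finset ℕ) (x U V M H q : ℕ) : Finset (Fin k → ℕ) :=
  (Fintype.piFinset (fun _ : Fin k => Ico M (M + H))).filter
    (fun N => (∀ i, q ∣ N i) ∧ Admissible N ∧ ¬ |(count S N U V : ℝ) - expected S N x U V| ≤ ε * expected S N x U V)

/-- the shifts -/
def sh {k : ℕ} (N : Fin k → ℕ) (i : Fin k) : ℤ := N i

lemma sh_inj {k : ℕ} : Function.Injective (sh : (Fin k → ℕ) → (Fin k → ℤ)) := by
  intro d e h
  funext i
  have h1 : ((d i : ℕ) : ℤ) = e i := congrFun h i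
  exact_mod_cast h1

lemma prod_sh {k : ℕ} (N : Fin k → ℕ) (n : ℕ) : ∏ i, ((N i : ℤ) - n) = ∏ i, ((-1 : ℤ) * n + sh N i) := by
  apply prod_congr rfl
  intro i _
  unfold sh
  ring

lemma ω_eq {k : ℕ} (N : Fin k → ℕ) (ℓ : ℕ) : ω N ℓ = Pool.Agent.H561.E2.omg (fun _ => -1) (sh N) ℓ := by
  classical
  unfold ω Pool.Agent.H561.E2.omg
  congr 1
  ext n
  simp only [mem_filter, prod_sh]

lemma ser_eq {k : ℕ} (N : Fin k → ℕ) : singularSeries N = Pool.Agent.H561.E2.singT (fun _ => -1) (sh N) := by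
  rw [← Pool.Agent.H561.E2.singD_eq]
  unfold singularSeries Pool.Agent.H561.E2.singD
  apply tprod_congr
  intro ℓ
  rw [ω_eq]

lemma omg_lt {s : ℕ} (a b : Fin s → ℤ) (p : ℕ) (hp : p.Prime) (h : ∃ n : ℕ, ¬ (p : ℤ) ∣ (n : ℤ) * ∏ i, (a i * (n : ℤ) + b i)) :
    Pool.Agent.H561.E2.omg a b p < p := by
  classical
  obtain ⟨n, hn⟩ := h
  have h1 : ¬ (p : ℤ) ∣ ((n % p : ℕ) : ℤ) * ∏ i, (a i * ((n % p : ℕ) : ℤ) + b i) := by
    intro h2
    apply hn
    have h3 : (n : ℤ) ≡ ((n % p : ℕ) : ℤ) [ZMOD p] := by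
      rw [Int.natCast_mod]
      exact (Int.mod_modEq _ _).symm
    have h4 : (n : ℤ) * ∏ i, (a i * (n : ℤ) + b i) ≡ ((n % p : ℕ) : ℤ) * ∏ i, (a i * ((n % p : ℕ) : ℤ) + b i) [ZMOD p] := by
      apply Int.ModEq.mul h3
      have h5 : ∀ T : Finset (Fin s), ∏ i ∈ T, (a i * (n : ℤ) + b i) ≡ ∏ i ∈ T, (a i * ((n % p : ℕ) : ℤ) + b i) [ZMOD p] := by
        intro T
        induction T using Finset.induction_on with
        | empty => simp
        | insert x T hx ih =>
          rw [prod_insert hx, prod_insert hx]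
          exact Int.ModEq.mul ((h3.mul_left _).add_right _) ih
      exact h5 univ
    exact (Int.ModEq.dvd_iff h4).2 h2
  have h2 : (range p).filter (fun n : ℕ => (p : ℤ) ∣ (n : ℤ) * ∏ i, (a i * (n : ℤ) + b i)) ⊂ range p := by
    rw [Finset.ssubset_iff_of_subset (filter_subset _ _)]
    refine ⟨n % p, mem_range.2 (Nat.mod_lt _ hp.pos), fun h3 => ?_⟩
    rw [mem_filter] at h3
    exact h1 h3.2
  have h3 := card_lt_card h2
  rw [card_range] at h3
  unfold Pool.Agent.H561.E2.omg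
  convert h3

lemma adm_of {k : ℕ} (N : Fin k → ℕ) (hN : Admissible N) (h0 : ∀ i, 0 < N i) :
    Pool.Agent.H561.E2.NDeg (fun _ => -1) (sh N) ∧ Pool.Agent.H561.E2.Adm (fun _ => -1) (sh N) := by
  refine ⟨⟨fun i h1 => ?_, fun i j hij h1 => ?_⟩, ?_⟩
  · unfold sh at h1
    have := h0 i
    omega
  · unfold Pool.Agent.H561.E2.DD sh at h1
    apply hij
    apply hN.1
    have h2 : ((N i : ℕ) : ℤ) = N j := by linarith
    exact_mod_cast h2
  · rw [Pool.Agent.H561.E2.adm_iff]
    intro q hq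
    apply omg_lt _ _ q hq
    obtain ⟨n, hn⟩ := hN.2 q hq
    refine ⟨n, ?_⟩
    rw [← prod_sh]
    exact hn

lemma cnt_eq {k : ℕ} (S : Fin k → Finset ℕ) (N : Fin k → ℕ) (U V : ℕ) (hV : ∀ i, V < N i) :
    count S N U V = Pool.Agent.H561.E2.cntE (fun _ => -1) S U V (sh N) := by
  classical
  unfold count Pool.Agent.H561.E2.cntE
  congr 1
  ext n
  simp only [mem_filter, mem_Ioc]
  apply and_congr_right
  intro h1
  apply and_congr_right
  intro _
  apply forall_congr'
  intro i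
  unfold ProductOfTwo Pool.Agent.H561.E2.PS Pool.Agent.H561.E2.LFo sh
  have h2 : n ≤ N i := h1.2.trans (hV i).le
  have h3 : ((-1 : ℤ) * n + N i).toNat = N i - n := by
    have : (-1 : ℤ) * n + N i = ((N i - n : ℕ) : ℤ) := by
      rw [Nat.cast_sub h2]
      ring
    rw [this, Int.toNat_natCast]
  rw [h3]

/-- **One prime for `k` multiples of `q` in a window of log-power length: `N_i - p = s_i p_i` with `s_i` in arbitrary sets of primes,
for almost all tuples.** -/
theorem result (k : ℕ) (hk : 0 < k) (ε : ℝ) (hε : 0 < ε) : ∃ θ : ℝ, 0 < θ ∧ ∀ A B C : ℕ, ∃ u G : ℕ, ∀ᶠ x : ℕ in atTop,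
    ∀ (P : ℕ) (S : Fin k → Finset ℕ) (U V M H q : ℕ), 1 ≤ P → (P : ℝ) ≤ (x : ℝ) ^ θ →
      (∀ i, ∀ s ∈ S i, s.Prime ∧ Real.log x ^ u < s ∧ s ≤ P) → (∀ i, 1 / Real.log x ^ B ≤ ∑ s ∈ S i, 1 / (s : ℝ)) →
      V < M → M + H ≤ x → x / Real.log x ^ B ≤ (V : ℝ) - U → P * Real.log x ^ G ≤ H → 1 ≤ q → (q : ℝ) ≤ Real.log x ^ C →
        ((exceptional ε S x U V M H q).card : ℝ) ≤ ((H : ℝ) / q) ^ k / Real.log x ^ A := by
  classical
  have hc0 : ∀ i : Fin k, (fun _ : Fin k => (-1 : ℤ)) i ≠ 0 := fun _ => by norm_num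
  obtain ⟨θ, hθ0, _, hT⟩ := Pool.Agent.H561.E3.cntPK k hk (fun _ => -1) hc0 (fun U => Pool.Agent.H561.E3.err_bigK hk (fun _ => -1) hc0 U) ε hε
  refine ⟨θ, hθ0, fun A B C => ?_⟩
  obtain ⟨a₀, hT⟩ := hT (A + C * k) B
  obtain ⟨G, X₀, hT⟩ := hT a₀ le_rfl
  refine ⟨a₀, G, ?_⟩
  refine Filter.eventually_atTop.2 ⟨max X₀ 3, fun x hx P S U V M H q hP hPθ hS hSB hVM hMx hUV hH hq1 hqC => ?_⟩
  have hx3 : 3 ≤ x := (le_max_right _ _).trans hx
  have hL : 0 < Real.log x := Real.log_pos (by exact_mod_cast (by omega : 1 < x))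
  have hUVn : U < V := by
    have h1 : (0 : ℝ) < x / Real.log x ^ B := by
      have : (0 : ℝ) < x := by exact_mod_cast (by omega : 0 < x)
      positivity
    have h2 : (U : ℝ) < V := by linarith
    exact_mod_cast h2
  have h0 := hT x ((le_max_left _ _).trans hx) P hP hPθ S hS hSB H hH U V (fun _ => (M : ℤ)) hUVn (by omega) hUV (by
    intro i n hn
    rw [mem_Ioc] at hn
    have h1 : (n : ℤ) + 1 ≤ M := by
      have : n + 1 ≤ M := by omega
      exact_mod_cast this
    have h2 : (0 : ℤ) ≤ n := Int.natCast_nonneg _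
    have h3 : (M : ℤ) + H ≤ x := by exact_mod_cast hMx
    constructor
    · linarith
    · linarith)
  have hinj : (exceptional ε S x U V M H q).card ≤
      ((Fintype.piFinset (fun i : Fin k => Ico ((fun _ : Fin k => (M : ℤ)) i) ((fun _ : Fin k => (M : ℤ)) i + H))).filter (fun h =>
        Pool.Agent.H561.E2.NDeg (fun _ => -1) h ∧ Pool.Agent.H561.E2.Adm (fun _ => -1) h ∧
        ¬ (Multipliable (fun p : ℕ => if p.Prime then Pool.Agent.H561.E2.lf (fun _ => -1) h p else 1) ∧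
          |(Pool.Agent.H561.E2.cntE (fun _ => -1) S U V h : ℝ) - Pool.Agent.H561.E2.Mn (fun _ => -1) S U V h / Real.log x ^ (k + 1)| ≤
          ε * (Pool.Agent.H561.E2.Mn (fun _ => -1) S U V h / Real.log x ^ (k + 1))))).card := by
    apply card_le_card_of_injOn sh _ sh_inj.injOn
    intro N hN
    have hN' : N ∈ exceptional ε S x U V M H q := hN
    unfold exceptional at hN'
    rw [mem_filter, Fintype.mem_piFinset] at hN'
    obtain ⟨h1, _, h2, h3⟩ := hN'
    have hNM : ∀ i, M ≤ N i ∧ N i < M + H := by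
      intro i
      have := h1 i
      rw [mem_Ico] at this
      exact this
    have hadm := adm_of N h2 (fun i => by have := (hNM i).1; omega)
    rw [mem_coe, mem_filter, Fintype.mem_piFinset]
    refine ⟨fun i => ?_, hadm.1, hadm.2, fun h4 => h3 ?_⟩
    · rw [mem_Ico]
      unfold sh
      have h5 : (M : ℤ) ≤ N i := by exact_mod_cast (hNM i).1
      have h6 : (N i : ℤ) < M + H := by exact_mod_cast (hNM i).2
      exact ⟨h5, h6⟩
    · have e1 := cnt_eq S N U V (fun i => by have := (hNM i).1; omega)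
      have e2 : expected S N x U V = Pool.Agent.H561.E2.Mn (fun _ => -1) S U V (sh N) / Real.log x ^ (k + 1) := by
        unfold expected Pool.Agent.H561.E2.Mn
        rw [ser_eq]
      rw [e1, e2]
      exact h4.2
  have hcard : ((exceptional ε S x U V M H q).card : ℝ) ≤ (H : ℝ) ^ k / Real.log x ^ (A + C * k) :=
    le_trans (by exact_mod_cast hinj) h0
  refine hcard.trans ?_
  have hq0 : (0 : ℝ) < q := by exact_mod_cast hq1
  rw [div_pow, div_div, pow_add, pow_mul]
  apply div_le_div_of_nonneg_left (by positivity) (by positivity)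
  rw [mul_comm (Real.log x ^ A)]
  apply mul_le_mul_of_nonneg_right _ (by positivity)
  exact pow_le_pow_left₀ hq0.le hqC k

end Pool.Agent.Results.MP_92f640_nt.MultiplesInShortWindows
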