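import Mathlib
import Pool.Agent.H528.GbF

set_option autoImplicit false

/-!
# Goldbach's problem for almost all members of arbitrary sets of targets: the asymptotic formula up to parity

Let `A` be ANY set of integers in `(N, 2N]` (for instance the even multiples of `q`, for all `q` up to `N ^ (1 - η)`).

* For ANY set `P` of summands, all but `|A| choose (k-1)` times `N ^ δ` (`δ < 1`) of the `k`-element sets `E` of members
  of `A` satisfy the asymptotic formula, up to `ε`, for the sum of `∏_{m ∈ E} Λ₂(m - p)` over the `p ∈ P`, `p < N`: the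
  function `Λ₂` of Selberg and Bombieri counts the primes `m - p` together with the products of two primes. For `k = 1`
  all but `N ^ δ` of the `m ∈ (N, 2N]` satisfy the formula.
* If `P` is the set of all primes the value is `(2 ^ k + O(ε)) 𝔖 N (log N) ^ (k - 1)` with the constant `𝔖` of the
  conjecture; the number of the primes `p` for which all the `m - p` are prime is at most `2 ^ k + ε` times the
  conjectured number `𝔖 N / (log N) ^ (k + 1)`; and for at least `2 ^ k - ε` times this number of the primes `p` all the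
  `m - p` have at most two different prime factors, all at least `N ^ ξ`.
-/

namespace Pool.Agent.Results.MP_92f640_nt.SieveForArbitraryTargets

open Finset Filter
open Pool.Agent.H387R2.Uni

/-- the function `Λ₂(m) = ∑_{d ∣ m} μ(d) log² (m / d)` -/
noncomputable def Lambda2 (m : ℕ) : ℝ :=
  ∑ d ∈ m.divisors, (ArithmeticFunction.moebius d : ℝ) * Real.log ((m : ℝ) / d) ^ 2

open Classical in
/-- the sum of `∏_{m ∈ E} Λ₂(m - p)` over the `p < N` in `P` such that all prime factors of all the numbers `m - p`,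
`m ∈ E`, are at least `N ^ ξ` -/
noncomputable def goldbachSum (P : Set ℕ) (E : Finset ℕ) (ξ : ℝ) (N : ℕ) : ℝ :=
  ∑ p ∈ (range N).filter (fun p => p ∈ P ∧ ∀ m ∈ E, ∀ q : ℕ, q.Prime → q ∣ m - p → (N : ℝ) ^ ξ ≤ q),
    ∏ m ∈ E, Lambda2 (m - p)

open Classical in
/-- the number of the `p < N` in `P` such that no `m - p`, `m ∈ E`, has a prime factor `≤ y` -/
noncomputable def roughCount (P : Set ℕ) (E : Finset ℕ) (y N : ℕ) : ℕ :=
  ((range N).filter (fun p => p ∈ P ∧ ∀ m ∈ E, ∀ q : ℕ, q.Prime → q ≤ y → ¬ q ∣ m - p)).card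

/-- `∏_{p ≤ y} (1 - 1 / p)` -/
noncomputable def eulerProd (y : ℕ) : ℝ := ∏ p ∈ (Icc 1 y).filter Nat.Prime, (1 - 1 / (p : ℝ))

/-- the number of the primes `p < N` such that all the `m - p`, `m ∈ E`, are prime -/
def primeCount (E : Finset ℕ) (N : ℕ) : ℕ := ((range N).filter (fun p => p.Prime ∧ ∀ m ∈ E, (m - p).Prime)).card

open Classical in
/-- the number of the primes `p < N` such that all the `m - p`, `m ∈ E`, have at most two different prime factors and
no prime factor less than `N ^ ξ` -/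
noncomputable def almostCount (E : Finset ℕ) (ξ : ℝ) (N : ℕ) : ℕ :=
  ((range N).filter (fun p => p.Prime ∧ ∀ m ∈ E, (m - p).primeFactors.card ≤ 2 ∧
    ∀ q : ℕ, q.Prime → q ∣ m - p → (N : ℝ) ^ ξ ≤ q)).card

open Pool.Agent.Y822 Pool.Agent.Y822.Par3 Pool.Agent.H528.Lam Pool.Agent.H528.AsyL
open Pool.Agent.H373R2.T7 (Vz)

lemma ro_iff' {ξ : ℝ} {N m : ℕ} (hN : 1 ≤ N) :
    (∀ q : ℕ, q.Prime → q ∣ m → (N : ℝ) ^ ξ ≤ q) ↔ Ro (zN ξ N) m := by
  constructor
  · intro h1 q hq hqz hqd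
    have h3 := zN_lt' (ε₁ := ξ) hN (h1 q hq hqd)
    omega
  · intro h1 q hq hqd
    by_contra h2
    push Not at h2
    exact h1 q hq (le_zN h2) hqd

open Classical in
/-- the indicator of `P` -/
noncomputable def ind (P : Set ℕ) (p : ℕ) : ℝ := if p ∈ P then 1 else 0

lemma ind_bd (P : Set ℕ) (p : ℕ) : 0 ≤ ind P p ∧ ind P p ≤ 1 := by
  unfold ind; split_ifs <;> norm_num

lemma goldbachSum_eq (P : Set ℕ) (E : Finset ℕ) (ξ : ℝ) (N : ℕ) (hN : 1 ≤ N) :
    goldbachSum P E ξ N = Pool.Agent.H528.GbM.SG (ind P) (zN ξ N) N E := by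
  classical
  unfold goldbachSum Pool.Agent.H528.GbM.SG
  rw [sum_filter]
  refine sum_congr rfl fun p _ => ?_
  unfold ind
  by_cases hp : p ∈ P
  · rw [if_pos hp, one_mul]
    by_cases hr : ∀ m ∈ E, Ro (zN ξ N) (m - p)
    · rw [if_pos ⟨hp, fun m hm => (ro_iff' hN).2 (hr m hm)⟩]
      refine prod_congr rfl fun m hm => ?_
      rw [Pool.Agent.H528.Avg.ro_of (hr m hm), one_mul]
      rfl
    · rw [if_neg (fun h => hr fun m hm => (ro_iff' hN).1 (h.2 m hm))]
      push Not at hr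
      obtain ⟨m, hm, h2⟩ := hr
      symm
      refine prod_eq_zero hm ?_
      have : ro (zN ξ N) (m - p) = 0 := by unfold ro; rw [if_neg h2]
      rw [this, zero_mul]
  · rw [if_neg hp, if_neg (fun h => hp h.1), zero_mul]

lemma roughCount_eq (P : Set ℕ) (E : Finset ℕ) (y N : ℕ) :
    (roughCount P E y N : ℝ) = Pool.Agent.H528.GbM.RG (ind P) y N E := by
  classical
  unfold roughCount Pool.Agent.H528.GbM.RG
  rw [card_eq_sum_ones, Nat.cast_sum, sum_filter]
  refine sum_congr rfl fun p _ => ?_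
  unfold ind
  by_cases hp : p ∈ P
  · rw [if_pos hp, one_mul]
    by_cases hr : ∀ m ∈ E, Ro y (m - p)
    · rw [if_pos ⟨hp, fun m hm => hr m hm⟩, Nat.cast_one]
      symm
      exact prod_eq_one fun m hm => Pool.Agent.H528.Avg.ro_of (hr m hm)
    · rw [if_neg (fun h => hr fun m hm => h.2 m hm)]
      push Not at hr
      obtain ⟨m, hm, h2⟩ := hr
      symm
      refine prod_eq_zero hm ?_
      unfold ro
      rw [if_neg h2]
  · rw [if_neg hp, if_neg (fun h => hp h.1), zero_mul]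

lemma ind_prime : ind {p | p.Prime} = eP := by
  funext p
  unfold ind eP
  by_cases h : p.Prime
  · rw [if_pos h, if_pos (show p ∈ {p | p.Prime} from h)]
  · rw [if_neg h, if_neg (show p ∉ {p | p.Prime} from h)]

lemma primeCount_eq (E : Finset ℕ) (N : ℕ) : primeCount E N = Pool.Agent.H528.GbF.rep N E := by
  classical
  unfold primeCount Pool.Agent.H528.GbF.rep
  congr 1

lemma almostCount_eq (E : Finset ℕ) (ξ : ℝ) (N : ℕ) (hN : 1 ≤ N) :
    almostCount E ξ N = Pool.Agent.H528.GbF.alm (zN ξ N) N E := by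
  classical
  unfold almostCount Pool.Agent.H528.GbF.alm
  congr 1
  ext p
  rw [mem_filter, mem_filter]
  refine and_congr_right fun _ => and_congr_right fun _ => forall₂_congr fun m _ => ?_
  rw [ro_iff' hN, and_comm]

lemma eulerProd_eq (y : ℕ) : eulerProd y = Vz y := by
  unfold eulerProd Vz
  rfl

open Classical in
theorem result :
    -- the conjectured constants are convergent products, positive for admissible sets
    (∀ E : Finset ℕ, HasProd (fun p : Nat.Primes => locT (insert 0 E) p) (CT (insert 0 E)) ∧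
      (Adm (insert 0 E) → 0 < CT (insert 0 E))) ∧
    -- the values of `Λ₂`
    ((∀ p : ℕ, p.Prime → Lambda2 p = Real.log p ^ 2) ∧
      (∀ p q : ℕ, p.Prime → q.Prime → p ≠ q → Lambda2 (p * q) = 2 * Real.log p * Real.log q) ∧
      (∀ m : ℕ, 3 ≤ m.primeFactors.card → Lambda2 m = 0)) ∧
    -- the asymptotic formula for ARBITRARY sets `P` of summands and ARBITRARY sets `A` of targets
    (∀ k : ℕ, 1 ≤ k → ∀ U : ℕ, ∀ ε : ℝ, 0 < ε → ∃ δ ξ κ : ℝ, 0 < δ ∧ δ < 1 ∧ 0 < ξ ∧ ξ ≤ ε ∧ 0 < κ ∧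
      ∃ N₀ : ℕ, ∀ N : ℕ, N₀ ≤ N → ∀ P : Set ℕ, ∀ A : Finset ℕ, (∀ m ∈ A, N < m ∧ m ≤ 2 * N) →
        (((A.powersetCard k).filter (fun E =>
          ε * ((2 * Real.log N / eulerProd ⌊Real.exp (κ * Real.log N / Real.log (Real.log N))⌋₊) ^ k *
            roughCount P E ⌊Real.exp (κ * Real.log N / Real.log (Real.log N))⌋₊ N) + N / Real.log N ^ U <
          |goldbachSum P E ξ N -
            (2 * Real.log N / eulerProd ⌊Real.exp (κ * Real.log N / Real.log (Real.log N))⌋₊) ^ k *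
              roughCount P E ⌊Real.exp (κ * Real.log N / Real.log (Real.log N))⌋₊ N|)).card : ℝ) ≤
          A.card.choose (k - 1) * (N : ℝ) ^ δ) ∧
    -- the set of all primes
    ∀ k : ℕ, 1 ≤ k → ∀ ε : ℝ, 0 < ε → ∃ δ ξ : ℝ, 0 < δ ∧ δ < 1 ∧ 0 < ξ ∧ ξ ≤ ε ∧
      ∃ N₀ : ℕ, ∀ N : ℕ, N₀ ≤ N → ∀ A : Finset ℕ, (∀ m ∈ A, N < m ∧ m ≤ 2 * N) →
        (((A.powersetCard k).filter (fun E => Adm (insert 0 E) ∧
          ¬ (|goldbachSum {p | p.Prime} E ξ N - 2 ^ k * CT (insert 0 E) * (N * Real.log N ^ (k - 1))| ≤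
              ε * CT (insert 0 E) * (N * Real.log N ^ (k - 1)) ∧
            (primeCount E N : ℝ) ≤ (2 ^ k + ε) * CT (insert 0 E) * (N / Real.log N ^ (k + 1)) ∧
            (2 ^ k - ε) * CT (insert 0 E) * (N / Real.log N ^ (k + 1)) ≤ almostCount E ξ N))).card : ℝ) ≤
          A.card.choose (k - 1) * (N : ℝ) ^ δ := by
  have habs : ∀ (δ : ℝ) (B : ℕ), δ < 1 → ∃ N₁ : ℕ, ∀ N : ℕ, N₁ ≤ N → ∀ X : ℝ, 0 ≤ X →
      X * ((N : ℝ) ^ δ * Real.log N ^ B) ≤ X * (N : ℝ) ^ ((1 + δ) / 2) := by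
    intro δ B hδ
    have e2 := ev_logN (ev_pow_exp B ((1 - δ) / 2) 1 (by linarith))
    obtain ⟨N₀, hN₀⟩ := eventually_atTop.1 e2
    refine ⟨max N₀ 1, fun N hN X hX => mul_le_mul_of_nonneg_left ?_ hX⟩
    have h2 := hN₀ N ((le_max_left _ _).trans hN)
    have hN1 : 1 ≤ N := (le_max_right _ _).trans hN
    have hN0 : (0 : ℝ) < N := by exact_mod_cast hN1
    rw [one_mul] at h2
    have e3 : (N : ℝ) ^ ((1 + δ) / 2) = (N : ℝ) ^ δ * Real.exp ((1 - δ) / 2 * Real.log N) := by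
      rw [mul_comm ((1 - δ) / 2), ← Real.rpow_def_of_pos hN0, ← Real.rpow_add hN0]
      congr 1
      ring
    rw [e3]
    exact mul_le_mul_of_nonneg_left h2 (by positivity)
  refine ⟨fun E => ⟨CT_hasProd _, fun hA => ?_⟩, ⟨fun p hp => ?_, fun p q hp hq hpq => ?_, fun m hm => ?_⟩,
    fun k hk U ε hε => ?_, fun k hk ε hε => ?_⟩
  · rw [← CT_en]
    apply Pool.Agent.H386R2.HL.singularSeries_pos (en_inj _)
    intro p hp
    rw [nu_en]
    exact hA p hp
  · have h1 : Lambda2 p = L2 p := rfl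
    rw [h1, L2_one_pf hp.one_lt.le hp.primeFactors]
    ring
  · have h1 : Lambda2 (p * q) = L2 (p * q) := rfl
    have h2 : (p * q).primeFactors = {p, q} := by
      rw [Nat.primeFactors_mul hp.ne_zero hq.ne_zero, hp.primeFactors, hq.primeFactors]
      rfl
    rw [h1, L2_two_pf (Nat.mul_pos hp.pos hq.pos) hpq h2]
  · have h1 : Lambda2 m = L2 m := rfl
    rcases Nat.eq_zero_or_pos m with rfl | h0
    · simp at hm
    · rw [h1, L2_three_pf h0 hm]
  · obtain ⟨k, rfl⟩ : ∃ j, k = j + 1 := ⟨k - 1, by omega⟩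
    obtain ⟨δ, hδ1, hδ2, ξ, hξ, hξ8, hξε, κ, hκ, hκ1, B, hB⟩ := Pool.Agent.H528.GbM.gold_gen k U ε hε
    obtain ⟨N₁, hN₁⟩ := habs δ B hδ2
    obtain ⟨N₀, hN₀⟩ := eventually_atTop.1 hB
    refine ⟨(1 + δ) / 2, ξ, κ, by linarith, by linarith, hξ, hξε, hκ, max (max N₀ N₁) 1, fun N hN P A hA => ?_⟩
    have h1 := hN₀ N ((le_max_left _ _).trans ((le_max_left _ _).trans hN))
    have h2 := hN₁ N ((le_max_right _ _).trans ((le_max_left _ _).trans hN))
    have hN1 : 1 ≤ N := (le_max_right _ _).trans hN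
    rw [Nat.add_sub_cancel]
    refine (h1 (ind P) (ind_bd P) A hA _ fun E hE => ?_).trans (h2 _ (Nat.cast_nonneg _))
    rw [mem_filter, goldbachSum_eq P E ξ N hN1, roughCount_eq, eulerProd_eq] at hE
    exact hE
  · obtain ⟨k, rfl⟩ : ∃ j, k = j + 1 := ⟨k - 1, by omega⟩
    obtain ⟨δ, hδ1, hδ2, ξ, hξ, hξ8, hξε, B, hB⟩ := Pool.Agent.H528.GbF.gold_full k ε hε
    obtain ⟨N₁, hN₁⟩ := habs δ B hδ2
    obtain ⟨N₀, hN₀⟩ := eventually_atTop.1 hB
    refine ⟨(1 + δ) / 2, ξ, by linarith, by linarith, hξ, hξε, max (max N₀ N₁) 1, fun N hN A hA => ?_⟩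
    have h1 := hN₀ N ((le_max_left _ _).trans ((le_max_left _ _).trans hN))
    have h2 := hN₁ N ((le_max_right _ _).trans ((le_max_left _ _).trans hN))
    have hN1 : 1 ≤ N := (le_max_right _ _).trans hN
    rw [Nat.add_sub_cancel]
    refine (h1 A hA _ fun E hE => ?_).trans (h2 _ (Nat.cast_nonneg _))
    rw [mem_filter, goldbachSum_eq _ E ξ N hN1, ind_prime, primeCount_eq, almostCount_eq E ξ N hN1] at hE
    exact hE

end Pool.Agent.Results.MP_92f640_nt.SieveForArbitraryTargets
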