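import Pool.Agent.H567.PP.All2
import Pool.Agent.H567.PP.X.Gmb
import Pool.Agent.H567.PP.X.FrRad

/-!
# Goldbach representations in ALL residue classes of all moduli with a small radical, for instance `q = 10 ^ k`

There is a set `D` of at most `(log x)^c` integers, whose RADICALS are all larger than any given power of `log x`,
such that every modulus `q` which is not divisible by a member of `D`, in particular EVERY modulus `q` whose radical is
at most `(log x)^B` (for instance `q = 2 ^ k`, `q = 10 ^ k`, `q = m ^ k` for every `m ≤ (log x)^B`), has the following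
properties.

(1) If `q ≤ x ^ (4 / 5 - ρ)`, then in EVERY residue class `a` modulo `q`, in particular for the multiples of `q`, all
but at most `x / (q (log x)^A)` of the even integers `n ≤ x` satisfy `g n ≥ (1 / 8) HL n ≥ (1 / 8) n / (log n)²`; in
particular the assertion of the problem holds for `q`, with `δ = 1 / 8`. So almost all even integers with any
prescribed `(4 / 5 - ρ) log x / log 10` last decimal digits have the expected number of representations up to a
constant factor.

(2) If `q ≤ x ^ (2 / 3 - ρ)`, then in EVERY residue class all but at most `x / (q (log x)^A)` of the even integers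
satisfy the asymptotic formula of Hardy and Littlewood, and even SIMULTANEOUSLY for all windows `U < p ≤ V` with
`q n ^ (1 / 3 + ρ) ≤ V ≤ n / 2` the number of the representations `n = p + p'` with the first prime in the window is
the expected one with an error of at most `V / (log n)^W`. The assertion of the problem holds with `δ = 13 / 10`.

In the starting library (`AllClassesFourFifths`, `AllClassesRegularModuli`, `ModuliUpToTwoThirds`) the members of the
exceptional set are only known to be large, which says nothing about `q = 10 ^ k` or `q = 2 ^ k` (or any other given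
sequence of large moduli), and there are neither short first summands nor asymptotic formulas in all classes.

Definitions used (in `Pool.Agent.H560R3.GB`): `g n`: the number of ordered pairs of primes `(p₁, p₂)` with
`p₁ + p₂ = n`; `sing n = 2 C₂ ∏_{p ∣ n, p > 2} (p - 1) / (p - 2)`, where `C₂ = ∏_{p > 2} (1 - 1 / (p - 1) ^ 2)`;
`HL n = sing n * (n / (log n)²)`, the prediction of Hardy and Littlewood.

Proof. (a) `H567/HW`: for `Y < n ≤ 2 Y` and a length `P` the mean square over the `n ≡ a (mod q)` of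
`∑_{b ≤ P} Λ(b) (Λ - Λ_z)(n - b)`, where `Λ_z` is a sieve model of a level of a power of `log Y`, is reduced to sums
of `Λ - Λ_z` over almost all intervals of the length `P`, twisted by characters; the primes are decomposed into sums of
type I of the level `Y ^ (2 / 3)` and bilinear sums with a variable between `Y ^ κ` and `Y ^ (1 / 3 + κ)`, estimated by
hybrid large sieves. There are at most `(log Y) ^ c` primitive characters (of all conductors) which are bad, i.e. induce
all the characters with large sums, by the large sieve for the powers of the short factors. The lower bound up to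
`x ^ (4 / 5 - ρ)` uses the engine `T6/H3/FR` of the library (a minorant of `Λ`). (b) `H567/PP`: a primitive character
`χ` modulo `d`, where `rad d ≤ (log x)^B` and `d > 8 (log x)^B`, is NOT bad. By a formula of Postnikov's type for
moduli with a small radical, `χ(1 + D w)` is the exponential of a polynomial in `w`, and Vinogradov's mean value
theorem gives `∑_{n ≤ N} χ(n) n^{it} ≪ N / (log x)^K` already for `N ≥ exp((log x)^(1 - η))`, also for `χ²`; a
pretentious argument (Halasz, Granville and Koukoulopoulos) passes from this to `∑_{p ≤ N} χ(p) p^{it}` for the same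
short `N`, without zeros of `L`-functions. So all short sums over primes which the badness of `χ` would need are small.
-/

set_option autoImplicit false

namespace Pool.Agent.Results.MP_92f640_nt.SmallRadicalModuli

open Finset
open Pool.Agent.H560R3.GB (g HL sing)

/-- The radical: the product of the prime factors. -/
def rad (n : ℕ) : ℕ := ∏ p ∈ n.primeFactors, p

/-- The number of the primes `p` with `U < p ≤ V` for which `n - p` is a prime. -/
def count (n U V : ℕ) : ℕ := ((Ioc U V).filter (fun p => p.Prime ∧ (n - p).Prime)).card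

/-- The expected number: the singular series times the sum of `1 / (log b log (n - b))` over `U < b ≤ V`
(the term `b = 1` is zero). -/
noncomputable def expected (n U V : ℕ) : ℝ :=
  sing n * ∑ b ∈ Ioc U V, 1 / (Real.log b * Real.log ((n - b : ℕ) : ℝ))

/-- The lower bound with one eighth of the predicted number. -/
def Lower (n : ℕ) : Prop := (1 / 8) * HL n ≤ g n ∧ (1 / 8) * ((n : ℝ) / Real.log n ^ 2) ≤ g n

/-- (i) The number of all representations is the one predicted by Hardy and Littlewood up to a relative error of at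
most `ε`, and it is at least `1.3 n / (log n)²`; (ii) simultaneously for all `U ≤ V` with
`q n ^ (1 / 3 + ρ) ≤ V ≤ n / 2` the number of the representations with the first prime in `(U, V]` is the expected one
with an error of at most `V / (log n)^W`; (iii) if also `V - U ≥ V / (log n)^W`, then it is
`sing n (V - U) / (log V log n)` up to a relative error of at most `ε`. -/
def Holds (ε ρ : ℝ) (W q n : ℕ) : Prop :=
  (|(g n : ℝ) - HL n| ≤ ε * HL n ∧ 13 / 10 * ((n : ℝ) / Real.log n ^ 2) ≤ g n) ∧
  (∀ U V : ℕ, U ≤ V → (q : ℝ) * (n : ℝ) ^ (1 / 3 + ρ) ≤ V → 2 * V ≤ n →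
    |(count n U V : ℝ) - expected n U V| ≤ V / Real.log n ^ W) ∧
  (∀ U V : ℕ, U ≤ V → (q : ℝ) * (n : ℝ) ^ (1 / 3 + ρ) ≤ V → 2 * V ≤ n → 0 < V →
    (V : ℝ) / Real.log n ^ W ≤ (V : ℝ) - U →
    |(count n U V : ℝ) - sing n * (((V : ℝ) - U) / (Real.log V * Real.log n))| ≤
      ε * (sing n * (((V : ℝ) - U) / (Real.log V * Real.log n))))

/-- The even integers `0 < n ≤ x` with `n ≡ a (mod q)` for which `F n` is false. -/
def exceptional (F : ℕ → Prop) (x : ℝ) (q : ℕ) (a : ℤ) : Set ℕ :=
  {n : ℕ | 0 < n ∧ (n : ℝ) ≤ x ∧ 2 ∣ n ∧ (n : ℤ) ≡ a [ZMOD q] ∧ ¬ F n}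

/-- The even multiples `n` of `q` in `(x / 2, x]` with fewer than `δ n / (log n)²` representations. -/
def few (δ x : ℝ) (q : ℕ) : Set ℕ :=
  {n : ℕ | x / 2 < n ∧ (n : ℝ) ≤ x ∧ 2 ∣ n ∧ q ∣ n ∧ (g n : ℝ) < δ * (n / Real.log n ^ 2)}

theorem cnt_eq (n : ℕ) : Pool.Agent.W93.PG.cnt n 0 n = g n := by
  unfold Pool.Agent.W93.PG.cnt g
  refine card_bij (fun p _ => (p, n - p)) ?_ ?_ ?_
  · intro p hp
    rw [mem_filter, mem_Ioc] at hp
    rw [mem_filter, HasAntidiagonal.mem_antidiagonal]
    exact ⟨by simp only; omega, hp.2⟩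
  · intro p _ p' _ h
    exact congrArg Prod.fst h
  · rintro ⟨a, b⟩ h
    rw [mem_filter, HasAntidiagonal.mem_antidiagonal] at h
    obtain ⟨h1, h2, h3⟩ := h
    simp only at h1 h2 h3
    have ha := h2.pos
    refine ⟨a, ?_, ?_⟩
    · rw [mem_filter, mem_Ioc]
      refine ⟨⟨ha, by omega⟩, h2, ?_⟩
      have : n - a = b := by omega
      rw [this]
      exact h3
    · have : n - a = b := by omega
      simp [this]

theorem lower (ρ : ℝ) (hρ : 0 < ρ) (A : ℕ) :
    ∃ c : ℕ, ∀ B : ℕ, ∃ x₀ : ℝ, ∀ x : ℝ, x₀ ≤ x → ∃ D : Finset ℕ, (D.card : ℝ) ≤ Real.log x ^ c ∧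
      (∀ d ∈ D, Real.log x ^ B < (rad d : ℝ)) ∧
      ∀ q : ℕ, 1 ≤ q → (q : ℝ) ≤ x ^ (4 / 5 - ρ) → (∀ d ∈ D, ¬ d ∣ q) → ∀ a : ℤ,
        (exceptional Lower x q a).Finite ∧ ((exceptional Lower x q a).ncard : ℝ) ≤ x / (q * Real.log x ^ A) := by
  have h := Pool.Agent.H996.PP.frrad (Pool.Agent.H376.PP.gmb Pool.Agent.H567.PP.pint_all) Lower 0
    ⟨1, fun n hn _ hw => ?_⟩ ρ hρ A
  · exact h
  · have h1 := hw 0 n (by omega) le_rfl (by simp)
    rw [cnt_eq] at h1
    have h2 := Pool.Agent.R460.GS.one_le_sing n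
    have h3 : (0 : ℝ) ≤ (n : ℝ) / Real.log n ^ 2 := by positivity
    have h4 : (1 / 8) * HL n ≤ g n := by
      refine le_trans (le_of_eq ?_) h1
      unfold Pool.Agent.H560R3.GB.HL
      push_cast
      ring
    refine ⟨h4, le_trans ?_ h4⟩
    unfold Pool.Agent.H560R3.GB.HL
    nlinarith

/-- the assertion of the problem for one modulus -/
theorem few_le {δ x : ℝ} {q A : ℕ} {F : ℕ → Prop} (hF : ∀ n, F n → δ * ((n : ℝ) / Real.log n ^ 2) ≤ g n)
    (hx : Real.exp 8 ≤ x) (hq : 1 ≤ q)
    (h : (exceptional F x q 0).Finite ∧ ((exceptional F x q 0).ncard : ℝ) ≤ x / (q * Real.log x ^ (A + 1))) :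
    (few δ x q).Finite ∧ ((few δ x q).ncard : ℝ) ≤ x / (8 * q) := by
  have hx0 : 0 < x := (Real.exp_pos _).trans_le hx
  have hL8 : 8 ≤ Real.log x := (Real.le_log_iff_exp_le hx0).2 hx
  have hq0 : (0 : ℝ) < q := by exact_mod_cast hq
  obtain ⟨h1, h2⟩ := h
  have hsub : few δ x q ⊆ exceptional F x q 0 := by
    intro n hn
    obtain ⟨k1, k2, k3, k4, k5⟩ := hn
    have hn0 : (0 : ℝ) < n := lt_trans (by positivity) k1
    refine ⟨by exact_mod_cast hn0, k2, k3, ?_, fun hc => ?_⟩
    · exact (Int.modEq_zero_iff_dvd.2 (by exact_mod_cast k4))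
    · exact absurd (hF n hc) (not_le.2 k5)
  refine ⟨h1.subset hsub, ?_⟩
  have h3 : ((few δ x q).ncard : ℝ) ≤ (exceptional F x q 0).ncard := by
    exact_mod_cast Set.ncard_le_ncard hsub h1
  refine h3.trans (h2.trans ?_)
  apply div_le_div_of_nonneg_left hx0.le (by positivity)
  rw [mul_comm (8 : ℝ)]
  apply mul_le_mul_of_nonneg_left _ hq0.le
  calc (8 : ℝ) ≤ Real.log x := hL8
    _ = Real.log x ^ 1 := (pow_one _).symm
    _ ≤ Real.log x ^ (A + 1) := pow_le_pow_right₀ (by linarith) (by omega)

/-- For all `ε, ρ > 0`, `A` and `W` there is `c` such that for all `B` and all sufficiently large real `x` there is a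
finite set `D` of at most `(log x) ^ c` integers, whose radicals are larger than `(log x) ^ B`, so that no
integer `q ≥ 1` with `rad q ≤ (log x) ^ B` is divisible by a member of `D`, with the following property.
Let `q ≥ 1` be an integer which is not divisible by a member of `D`. (1) If `q ≤ x ^ (4 / 5 - ρ)`, then for every integer
`a` all but at most `x / (q (log x)^A)` of the even integers `0 < n ≤ x`, `n ≡ a (mod q)`, satisfy
`g n ≥ (1 / 8) HL n` and `g n ≥ (1 / 8) n / (log n)²`, and all but at most `x / (8 q)` of the even multiples `n` of `q`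
in `(x / 2, x]` satisfy `g n ≥ (1 / 8) n / (log n)²`, which is the assertion of the problem for `q`, with `δ = 1 / 8`.
(2) If `q ≤ x ^ (2 / 3 - ρ)`, then for every integer `a` all but at most `x / (q (log x)^A)` of the even integers
`0 < n ≤ x`, `n ≡ a (mod q)`, satisfy `Holds ε ρ W q n`, and all but at most `x / (8 q)` of the even multiples `n` of
`q` in `(x / 2, x]` satisfy `g n ≥ 1.3 n / (log n)²`, which is the assertion of the problem for `q`, with
`δ = 13 / 10`. -/
theorem result (ε ρ : ℝ) (hε : 0 < ε) (hρ : 0 < ρ) (A W : ℕ) :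
    ∃ c : ℕ, ∀ B : ℕ, ∃ x₀ : ℝ, ∀ x : ℝ, x₀ ≤ x →
    ∃ D : Finset ℕ, (D.card : ℝ) ≤ Real.log x ^ c ∧ (∀ d ∈ D, Real.log x ^ B < (rad d : ℝ)) ∧
    (∀ q : ℕ, 1 ≤ q → (rad q : ℝ) ≤ Real.log x ^ B → ∀ d ∈ D, ¬ d ∣ q) ∧
    ∀ q : ℕ, 1 ≤ q → (∀ d ∈ D, ¬ d ∣ q) →
      ((q : ℝ) ≤ x ^ (4 / 5 - ρ) →
        (∀ a : ℤ, (exceptional Lower x q a).Finite ∧
          ((exceptional Lower x q a).ncard : ℝ) ≤ x / (q * Real.log x ^ A)) ∧
        ((few (1 / 8) x q).Finite ∧ ((few (1 / 8) x q).ncard : ℝ) ≤ x / (8 * q))) ∧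
      ((q : ℝ) ≤ x ^ (2 / 3 - ρ) →
        (∀ a : ℤ, (exceptional (Holds ε ρ W q) x q a).Finite ∧
          ((exceptional (Holds ε ρ W q) x q a).ncard : ℝ) ≤ x / (q * Real.log x ^ A)) ∧
        ((few (13 / 10) x q).Finite ∧ ((few (13 / 10) x q).ncard : ℝ) ≤ x / (8 * q))) := by
  classical
  obtain ⟨c₁, h₁⟩ := lower ρ hρ (A + 1)
  obtain ⟨c₂, h₂⟩ := Pool.Agent.H567.PP.reg_rad (A + 1) W hρ hε
  refine ⟨c₁ + c₂ + 1, fun B => ?_⟩
  obtain ⟨x₁, h₁⟩ := h₁ B
  obtain ⟨x₂, h₂⟩ := h₂ B
  refine ⟨max (max x₁ x₂) (Real.exp 8), fun x hx => ?_⟩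
  have hxx₁ : x₁ ≤ x := (le_max_left _ _).trans ((le_max_left _ _).trans hx)
  have hxx₂ : x₂ ≤ x := (le_max_right _ _).trans ((le_max_left _ _).trans hx)
  have hxe : Real.exp 8 ≤ x := (le_max_right _ _).trans hx
  have hx0 : 0 < x := (Real.exp_pos _).trans_le hxe
  have hL8 : 8 ≤ Real.log x := (Real.le_log_iff_exp_le hx0).2 hxe
  have hL1 : 1 ≤ Real.log x := by linarith
  obtain ⟨D₁, hc₁, hr₁, hD₁⟩ := h₁ x hxx₁
  obtain ⟨D₂, hc₂, hr₂, hD₂⟩ := h₂ x hxx₂
  have hrad : ∀ d ∈ D₁ ∪ D₂, Real.log x ^ B < (rad d : ℝ) := by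
    intro d hd
    rcases mem_union.1 hd with h | h
    · exact hr₁ d h
    · exact hr₂ d h
  refine ⟨D₁ ∪ D₂, ?_, hrad, ?_, ?_⟩
  · have h3 : ((D₁ ∪ D₂).card : ℝ) ≤ D₁.card + D₂.card := by exact_mod_cast card_union_le _ _
    have h4 : Real.log x ^ c₁ ≤ Real.log x ^ (c₁ + c₂) := pow_le_pow_right₀ hL1 (by omega)
    have h5 : Real.log x ^ c₂ ≤ Real.log x ^ (c₁ + c₂) := pow_le_pow_right₀ hL1 (by omega)
    have h6 : 0 < Real.log x ^ (c₁ + c₂) := by positivity
    calc ((D₁ ∪ D₂).card : ℝ) ≤ 2 * Real.log x ^ (c₁ + c₂) := by linarith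
      _ ≤ Real.log x * Real.log x ^ (c₁ + c₂) := by gcongr; linarith
      _ = Real.log x ^ (c₁ + c₂ + 1) := by ring
  · intro q hq hqr d hd hdq
    have h3 := hrad d hd
    have h4 : rad d ≤ rad q := by
      unfold rad
      refine Finset.prod_le_prod_of_subset_of_one_le' (Nat.primeFactors_mono hdq (by omega)) fun p hp _ => ?_
      exact (Nat.prime_of_mem_primeFactors hp).pos
    have h5 : (rad d : ℝ) ≤ rad q := by exact_mod_cast h4
    linarith
  · intro q hq hqD
    have hq0 : (0 : ℝ) < q := by exact_mod_cast hq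
    have hle : x / (q * Real.log x ^ (A + 1)) ≤ x / (q * Real.log x ^ A) := by
      apply div_le_div_of_nonneg_left hx0.le (by positivity)
      apply mul_le_mul_of_nonneg_left _ hq0.le
      exact pow_le_pow_right₀ hL1 (by omega)
    constructor
    · intro hqx
      have hall := hD₁ q hq hqx (fun d hd => hqD d (mem_union_left _ hd))
      exact ⟨fun a => ⟨(hall a).1, (hall a).2.trans hle⟩,
        few_le (F := Lower) (fun n hn => hn.2) hxe hq (hall 0)⟩
    · intro hqx
      have hall : ∀ a : ℤ, (exceptional (Holds ε ρ W q) x q a).Finite ∧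
          ((exceptional (Holds ε ρ W q) x q a).ncard : ℝ) ≤ x / (q * Real.log x ^ (A + 1)) :=
        hD₂ q hq hqx (fun d hd => hqD d (mem_union_right _ hd))
      exact ⟨fun a => ⟨(hall a).1, (hall a).2.trans hle⟩,
        few_le (F := Holds ε ρ W q) (fun n hn => hn.1.2) hxe hq (hall 0)⟩

end Pool.Agent.Results.MP_92f640_nt.SmallRadicalModuli
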